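import Mathlib

set_option autoImplicit false

namespace Pool.Agent.MP85210c

/-- The polar body of a subset of Euclidean space. -/
def polarBody {n : ℕ} (K : Set (EuclideanSpace ℝ (Fin n))) : Set (EuclideanSpace ℝ (Fin n)) :=
  {y | ∀ x ∈ K, inner ℝ x y ≤ 1}

/-- The volume product: Lebesgue volume of `K` times Lebesgue volume of the polar body. -/
noncomputable def volumeProduct {n : ℕ} (K : Set (EuclideanSpace ℝ (Fin n))) : ℝ :=
  MeasureTheory.volume.real K * MeasureTheory.volume.real (polarBody K)

end Pool.Agent.MP85210c
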